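import Mathlib

/-!
# The bound `(2k+2-d)/(2k+2)` on the `k`-independence ratio is never sharp for `k ≥ d ≥ 2`

We prove by induction on the number of edges that every finite graph has, for each `k ≥ 2`, a set
`T` of vertices whose deletion leaves maximum degree at most `k`, with
`(k+2)(2k+3)|T| ≤ 2(k+2) e(G) + n(G)`. For average degree `d > (2k+2)/(k+2)` this beats the greedy
bound `|T| ≤ e(G)/(k+1)`, uniformly in `n`.
-/

set_option autoImplicit false

open Classical Finset

namespace Pool.Agent.Results.MP_10f18b_co.NotSharp

variable {V : Type} [Fintype V]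

/-- `S` is `k`-independent in `G`: the induced subgraph `G[S]` has maximum degree at most `k`. -/
def IsKIndependent (G : SimpleGraph V) (k : ℕ) (S : Finset V) : Prop :=
  (G.induce (S : Set V)).maxDegree ≤ k

/-- The `k`-independence number: the largest size of a `k`-independent set. -/
noncomputable def kIndependenceNumber (G : SimpleGraph V) (k : ℕ) : ℕ :=
  (univ.filter (fun S : Finset V => IsKIndependent G k S)).sup card

/-- The average degree. -/
noncomputable def averageDegree (G : SimpleGraph V) : ℝ :=
  (∑ v, (G.degree v : ℝ)) / Fintype.card V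

/-- `f(k,d)`: the infimum of `α_k(G)/n(G)` over the finite graphs `G` with at least one vertex and
average degree at most `d`. -/
noncomputable def f (k d : ℕ) : ℝ :=
  sInf {r : ℝ | ∃ (V : Type) (_ : Fintype V) (_ : Nonempty V) (G : SimpleGraph V),
    averageDegree G ≤ d ∧ r = (kIndependenceNumber G k : ℝ) / Fintype.card V}

/-- Number of neighbours of `v` outside `T`. -/
noncomputable def rdeg (G : SimpleGraph V) (T : Finset V) (v : V) : ℕ :=
  (univ.filter (fun w => G.Adj v w ∧ w ∉ T)).card

/-- `G` without `T` and without the edges joining two vertices of remaining degree at most `k`. -/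
def red (G : SimpleGraph V) (k : ℕ) (T : Finset V) : SimpleGraph V where
  Adj x y := G.Adj x y ∧ x ∉ T ∧ y ∉ T ∧ (k < rdeg G T x ∨ k < rdeg G T y)
  symm := by
    constructor
    rintro x y ⟨h1, h2, h3, h4⟩
    exact ⟨h1.symm, h3, h2, h4.symm⟩
  loopless := by
    constructor
    rintro x ⟨h1, _⟩
    exact G.loopless.irrefl x h1

/-- deleting `T` leaves maximum degree at most `k` -/
def Good (G : SimpleGraph V) (k : ℕ) (T : Finset V) : Prop := ∀ v, v ∉ T → rdeg G T v ≤ k

lemma good_of_red {G : SimpleGraph V} {k : ℕ} {T T' : Finset V} (h : Good (red G k T) k T') :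
    Good G k (T ∪ T') := by
  intro v hv
  rw [mem_union, not_or] at hv
  by_cases hk : k < rdeg G T v
  · refine le_trans ?_ (h v hv.2)
    apply card_le_card
    intro w hw
    simp only [mem_filter, mem_univ, true_and, mem_union, not_or] at hw ⊢
    exact ⟨⟨hw.1, hv.1, hw.2.1, Or.inl hk⟩, hw.2.2⟩
  · push Not at hk
    refine le_trans ?_ hk
    apply card_le_card
    intro w hw
    simp only [mem_filter, mem_univ, true_and, mem_union, not_or] at hw ⊢
    exact ⟨hw.1, hw.2.1⟩

/-- the non-isolated vertices -/
noncomputable def supp (G : SimpleGraph V) : Finset V := univ.filter (fun v => ∃ w, G.Adj v w)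

lemma red_le (G : SimpleGraph V) (k : ℕ) (T : Finset V) : red G k T ≤ G := fun _ _ h => h.1

lemma supp_red (G : SimpleGraph V) (k : ℕ) (T : Finset V) : supp (red G k T) ⊆ supp G := by
  intro v hv
  simp only [supp, mem_filter, mem_univ, true_and] at hv ⊢
  obtain ⟨w, hw⟩ := hv
  exact ⟨w, hw.1⟩

lemma rdeg_empty (G : SimpleGraph V) (v : V) : rdeg G ∅ v = G.degree v := by
  unfold rdeg
  rw [← SimpleGraph.card_neighborFinset_eq_degree]
  congr 1
  ext w
  simp

lemma rdeg_le (G : SimpleGraph V) (T : Finset V) (v : V) : rdeg G T v ≤ G.degree v := by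
  rw [← rdeg_empty]
  apply card_le_card
  intro w hw
  simp only [mem_filter, mem_univ, true_and] at hw ⊢
  exact ⟨hw.1, by simp⟩

lemma rdeg_lt (G : SimpleGraph V) (T : Finset V) (v t : V) (ht : t ∈ T) (h : G.Adj v t) :
    rdeg G T v < G.degree v := by
  rw [← rdeg_empty]
  apply card_lt_card
  rw [Finset.ssubset_iff_of_subset]
  · exact ⟨t, by simp [h], by simp [ht]⟩
  · intro w hw
    simp only [mem_filter, mem_univ, true_and] at hw ⊢
    exact ⟨hw.1, by simp⟩

lemma edge_count (G : SimpleGraph V) (k : ℕ) (T : Finset V) (M : Finset (Sym2 V))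
    (h1 : M ⊆ G.edgeFinset) (h2 : ∀ e ∈ M, e ∉ (red G k T).edgeFinset) :
    (red G k T).edgeFinset.card + M.card ≤ G.edgeFinset.card := by
  rw [← Finset.card_union_of_disjoint]
  · apply card_le_card
    apply union_subset _ h1
    exact SimpleGraph.edgeFinset_mono (red_le G k T)
  · rw [Finset.disjoint_left]
    intro e he he'
    exact h2 e he' he

/-- the statement proved by induction -/
def Stmt (k : ℕ) (G : SimpleGraph V) : Prop :=
  ∃ T : Finset V, Good G k T ∧
    (k + 2) * (2 * k + 3) * T.card ≤ 2 * (k + 2) * G.edgeFinset.card + (supp G).card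

lemma step (k : ℕ) (G : SimpleGraph V)
    (ih : ∀ G' : SimpleGraph V, G'.edgeFinset.card < G.edgeFinset.card → Stmt k G')
    (T : Finset V) (M : Finset (Sym2 V))
    (h1 : M ⊆ G.edgeFinset) (h2 : ∀ e ∈ M, e ∉ (red G k T).edgeFinset)
    (hM : 1 ≤ M.card) (h3 : (2 * k + 3) * T.card ≤ 2 * M.card) : Stmt k G := by
  have hc := edge_count G k T M h1 h2
  obtain ⟨T', hT', hb⟩ := ih (red G k T) (by omega)
  refine ⟨T ∪ T', good_of_red hT', ?_⟩
  have hs := card_le_card (supp_red G k T)
  have hu := card_union_le T T'
  calc (k + 2) * (2 * k + 3) * (T ∪ T').card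
      ≤ (k + 2) * (2 * k + 3) * (T.card + T'.card) := Nat.mul_le_mul_left _ hu
    _ = (k + 2) * ((2 * k + 3) * T.card) + (k + 2) * (2 * k + 3) * T'.card := by ring
    _ ≤ (k + 2) * (2 * M.card) + (2 * (k + 2) * (red G k T).edgeFinset.card
          + (supp (red G k T)).card) := by
        apply Nat.add_le_add _ hb
        exact Nat.mul_le_mul_left _ h3
    _ ≤ (k + 2) * (2 * M.card) + (2 * (k + 2) * (red G k T).edgeFinset.card
          + (supp G).card) := by omega
    _ = 2 * (k + 2) * ((red G k T).edgeFinset.card + M.card) + (supp G).card := by ring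
    _ ≤ 2 * (k + 2) * G.edgeFinset.card + (supp G).card := by
        apply Nat.add_le_add_right
        exact Nat.mul_le_mul_left _ hc

lemma inc_sub (G : SimpleGraph V) (v : V) : G.incidenceFinset v ⊆ G.edgeFinset :=
  SimpleGraph.incidenceFinset_subset G v

lemma inc_not_red (G : SimpleGraph V) (k : ℕ) (T : Finset V) (v : V) (hv : v ∈ T) (e : Sym2 V)
    (he : e ∈ G.incidenceFinset v) : e ∉ (red G k T).edgeFinset := by
  induction e using Sym2.ind with
  | _ x y =>
    rw [SimpleGraph.mem_incidenceFinset] at he
    rw [SimpleGraph.mem_edgeFinset, SimpleGraph.mem_edgeSet]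
    rintro ⟨_, h2, h3, _⟩
    rcases Sym2.mem_iff.1 he.2 with rfl | rfl
    · exact h2 hv
    · exact h3 hv

lemma not_red_of_low (G : SimpleGraph V) (k : ℕ) (T : Finset V) (x y : V)
    (hx : rdeg G T x ≤ k) (hy : rdeg G T y ≤ k) : s(x, y) ∉ (red G k T).edgeFinset := by
  rw [SimpleGraph.mem_edgeFinset, SimpleGraph.mem_edgeSet]
  rintro ⟨_, _, _, h | h⟩ <;> omega

lemma not_mem_inc (G : SimpleGraph V) (v x y : V) (hx : v ≠ x) (hy : v ≠ y) :
    s(x, y) ∉ G.incidenceFinset v := by
  rw [SimpleGraph.mem_incidenceFinset]
  rintro ⟨_, h⟩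
  rcases Sym2.mem_iff.1 h with rfl | rfl
  · exact hx rfl
  · exact hy rfl

lemma inc_disj (G : SimpleGraph V) (s t : V) (hst : s ≠ t) (h : ¬ G.Adj s t) :
    Disjoint (G.incidenceFinset s) (G.incidenceFinset t) := by
  rw [Finset.disjoint_left]
  intro e he he'
  rw [SimpleGraph.mem_incidenceFinset] at he he'
  have : e = s(s, t) := (Sym2.mem_and_mem_iff hst).1 ⟨he.2, he'.2⟩
  subst this
  exact h (he.1)

theorem main (k : ℕ) (hk : 2 ≤ k) : ∀ (m : ℕ) (G : SimpleGraph V), G.edgeFinset.card = m →
    Stmt k G := by
  intro m
  induction m using Nat.strong_induction_on with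
  | _ m IH =>
  intro G hG
  have ih : ∀ G' : SimpleGraph V, G'.edgeFinset.card < G.edgeFinset.card → Stmt k G' := by
    intro G' h
    exact IH _ (by omega) G' rfl
  -- (a) every edge has an endpoint of degree > k
  by_cases ha : ∃ x y, G.Adj x y ∧ G.degree x ≤ k ∧ G.degree y ≤ k
  · obtain ⟨x, y, hxy, hx, hy⟩ := ha
    refine step k G ih ∅ {s(x, y)} ?_ ?_ (by simp) (by simp)
    · intro e he
      rw [mem_singleton] at he
      subst he
      rw [SimpleGraph.mem_edgeFinset]
      exact hxy
    · intro e he
      rw [mem_singleton] at he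
      subst he
      exact not_red_of_low G k ∅ x y ((rdeg_le G ∅ x).trans hx) ((rdeg_le G ∅ y).trans hy)
  -- (b) no vertex of degree ≥ k + 2
  by_cases hb : ∃ v, k + 2 ≤ G.degree v
  · obtain ⟨v, hv⟩ := hb
    have hc : (G.incidenceFinset v).card = G.degree v := G.card_incidenceFinset_eq_degree v
    refine step k G ih {v} (G.incidenceFinset v) (inc_sub G v) ?_ (by omega) ?_
    · intro e he
      exact inc_not_red G k {v} v (by simp) e he
    · rw [card_singleton]
      omega
  push Not at ha hb
  -- (c) reduction with one vertex and one further free edge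
  have hc : ∀ s x y, G.degree s = k + 1 → G.Adj s x → G.Adj x y → s ≠ y →
      (G.degree y ≤ k ∨ G.Adj s y) → Stmt k G := by
    intro s x y hs hsx hxy hsy hy
    have hcd : (G.incidenceFinset s).card = G.degree s := G.card_incidenceFinset_eq_degree s
    have hx' : rdeg G {s} x ≤ k := by
      have := rdeg_lt G {s} x s (by simp) hsx.symm
      have := hb x
      omega
    have hy' : rdeg G {s} y ≤ k := by
      rcases hy with hy | hy
      · exact (rdeg_le G {s} y).trans hy
      · have := rdeg_lt G {s} y s (by simp) hy.symm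
        have := hb y
        omega
    have hnot : s(x, y) ∉ G.incidenceFinset s := not_mem_inc G s x y hsx.ne hsy
    refine step k G ih {s} (insert s(x, y) (G.incidenceFinset s)) ?_ ?_ ?_ ?_
    · apply insert_subset _ (inc_sub G s)
      rw [SimpleGraph.mem_edgeFinset]
      exact hxy
    · intro e he
      rcases mem_insert.1 he with rfl | he
      · exact not_red_of_low G k {s} x y hx' hy'
      · exact inc_not_red G k {s} s (by simp) e he
    · rw [card_insert_of_notMem hnot]
      omega
    · rw [card_insert_of_notMem hnot, card_singleton]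
      omega
  by_cases hnc : Stmt k G
  · exact hnc
  -- from now on no such configuration exists
  have hc' : ∀ s x y, G.degree s = k + 1 → G.Adj s x → G.Adj x y → s ≠ y →
      ¬ (G.degree y ≤ k) ∧ ¬ G.Adj s y := by
    intro s x y h1 h2 h3 h4
    constructor
    · intro h
      exact hnc (hc s x y h1 h2 h3 h4 (Or.inl h))
    · intro h
      exact hnc (hc s x y h1 h2 h3 h4 (Or.inr h))
  -- (d1) two adjacent vertices of degree k + 1
  by_cases hd : ∃ s x, G.Adj s x ∧ G.degree s = k + 1 ∧ G.degree x = k + 1
  · exfalso
    obtain ⟨s, x, hsx, hs, hx⟩ := hd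
    have hN : ∀ v, (G.neighborFinset v).card = G.degree v :=
      fun v => G.card_neighborFinset_eq_degree v
    obtain ⟨y, hy⟩ : ((G.neighborFinset x).erase s).Nonempty := by
      rw [← card_pos]
      have := pred_card_le_card_erase (s := G.neighborFinset x) (a := s)
      have := hN x
      omega
    rw [mem_erase, SimpleGraph.mem_neighborFinset] at hy
    obtain ⟨hys, hxy⟩ := hy
    obtain ⟨hyk, hsy⟩ := hc' s x y hs hsx hxy hys.symm
    have hy : G.degree y = k + 1 := by
      have := hb y
      omega
    obtain ⟨t1, ht1, t2, ht2, ht12⟩ : ∃ t1 ∈ (G.neighborFinset y).erase x,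
        ∃ t2 ∈ (G.neighborFinset y).erase x, t1 ≠ t2 := by
      rw [← one_lt_card]
      have := pred_card_le_card_erase (s := G.neighborFinset y) (a := x)
      have := hN y
      omega
    rw [mem_erase, SimpleGraph.mem_neighborFinset] at ht1 ht2
    have hxr : ∀ T : Finset V, s ∈ T → rdeg G T x ≤ k := by
      intro T hT
      have := rdeg_lt G T x s hT hsx.symm
      omega
    -- a path s x y t with s, t non-adjacent
    have case1 : ∀ t, t ≠ x → G.Adj y t → G.Adj s t := by
      intro t htx hyt
      by_contra hst
      have hsty : s ≠ t := by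
        rintro rfl
        exact hsy hyt.symm
      have hdis := inc_disj G s t hsty hst
      have htd : G.degree t = k + 1 := by
        obtain ⟨h1, _⟩ := hc' x y t hx hxy hyt htx.symm
        have := hb t
        omega
      have hnot1 : s(x, y) ∉ G.incidenceFinset s := not_mem_inc G s x y hsx.ne hys.symm
      have hnot2 : s(x, y) ∉ G.incidenceFinset t := not_mem_inc G t x y htx hyt.ne.symm
      have hnot : s(x, y) ∉ G.incidenceFinset s ∪ G.incidenceFinset t := by
        rw [mem_union, not_or]
        exact ⟨hnot1, hnot2⟩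
      have hc1 : (G.incidenceFinset s).card = G.degree s := G.card_incidenceFinset_eq_degree s
      have hc2 : (G.incidenceFinset t).card = G.degree t := G.card_incidenceFinset_eq_degree t
      apply hnc
      refine step k G ih {s, t} (insert s(x, y) (G.incidenceFinset s ∪ G.incidenceFinset t))
        ?_ ?_ ?_ ?_
      · apply insert_subset _ (union_subset (inc_sub G s) (inc_sub G t))
        rw [SimpleGraph.mem_edgeFinset]
        exact hxy
      · intro e he
        rcases mem_insert.1 he with rfl | he
        · apply not_red_of_low G k {s, t} x y (hxr _ (by simp))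
          have := rdeg_lt G {s, t} y t (by simp) hyt
          omega
        · rcases mem_union.1 he with he | he
          · exact inc_not_red G k {s, t} s (by simp) e he
          · exact inc_not_red G k {s, t} t (by simp) e he
      · rw [card_insert_of_notMem hnot]
        omega
      · rw [card_insert_of_notMem hnot, card_union_of_disjoint hdis, card_pair hsty]
        omega
    have hst1 := case1 t1 ht1.1 ht1.2
    have hst2 := case1 t2 ht2.1 ht2.2
    -- now delete s and x
    have hc1 : (G.incidenceFinset s).card = G.degree s := G.card_incidenceFinset_eq_degree s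
    have hc2 : (G.incidenceFinset x).card = G.degree x := G.card_incidenceFinset_eq_degree x
    have hint : (G.incidenceFinset s ∩ G.incidenceFinset x).card ≤ 1 := by
      rw [card_le_one]
      intro a ha b hb
      rw [mem_inter, SimpleGraph.mem_incidenceFinset, SimpleGraph.mem_incidenceFinset] at ha hb
      have h1 : a = s(s, x) := (Sym2.mem_and_mem_iff hsx.ne).1 ⟨ha.1.2, ha.2.2⟩
      have h2 : b = s(s, x) := (Sym2.mem_and_mem_iff hsx.ne).1 ⟨hb.1.2, hb.2.2⟩
      rw [h1, h2]
    have hun := card_union_add_card_inter (G.incidenceFinset s) (G.incidenceFinset x)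
    have hnot1 : s(y, t1) ∉ G.incidenceFinset s ∪ G.incidenceFinset x := by
      rw [mem_union, not_or]
      exact ⟨not_mem_inc G s y t1 hys.symm hst1.ne, not_mem_inc G x y t1 hxy.ne ht1.1.symm⟩
    have hnot2 : s(y, t2) ∉ insert s(y, t1) (G.incidenceFinset s ∪ G.incidenceFinset x) := by
      rw [mem_insert, mem_union, not_or, not_or]
      refine ⟨?_, not_mem_inc G s y t2 hys.symm hst2.ne, not_mem_inc G x y t2 hxy.ne ht2.1.symm⟩
      intro h
      rcases Sym2.eq_iff.1 h with h | h
      · exact ht12 h.2.symm
      · exact ht1.2.ne h.1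
    apply hnc
    refine step k G ih {s, x} (insert s(y, t2) (insert s(y, t1)
      (G.incidenceFinset s ∪ G.incidenceFinset x))) ?_ ?_ ?_ ?_
    · apply insert_subset
      · rw [SimpleGraph.mem_edgeFinset]
        exact ht2.2
      apply insert_subset _ (union_subset (inc_sub G s) (inc_sub G x))
      rw [SimpleGraph.mem_edgeFinset]
      exact ht1.2
    · have hyr : rdeg G {s, x} y ≤ k := by
        have := rdeg_lt G {s, x} y x (by simp) hxy.symm
        omega
      have htr : ∀ t, G.Adj s t → rdeg G {s, x} t ≤ k := by
        intro t ht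
        have := rdeg_lt G {s, x} t s (by simp) ht.symm
        have := hb t
        omega
      intro e he
      rcases mem_insert.1 he with rfl | he
      · exact not_red_of_low G k {s, x} y t2 hyr (htr t2 hst2)
      rcases mem_insert.1 he with rfl | he
      · exact not_red_of_low G k {s, x} y t1 hyr (htr t1 hst1)
      · rcases mem_union.1 he with he | he
        · exact inc_not_red G k {s, x} s (by simp) e he
        · exact inc_not_red G k {s, x} x (by simp) e he
    · rw [card_insert_of_notMem hnot2]
      omega
    · rw [card_insert_of_notMem hnot2, card_insert_of_notMem hnot1, card_pair hsx.ne]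
      omega
  push Not at hd
  -- (d2) a vertex of small degree with two neighbours
  by_cases he : ∃ u s1 s2, G.Adj u s1 ∧ G.Adj u s2 ∧ s1 ≠ s2 ∧ G.degree u ≤ k
  · obtain ⟨u, s1, s2, h1, h2, h12, hu⟩ := he
    have hs : ∀ s, G.Adj u s → G.degree s = k + 1 := by
      intro s hs
      have := ha u s hs hu
      have := hb s
      omega
    have hs1 := hs s1 h1
    have hs2 := hs s2 h2
    have hn12 : ¬ G.Adj s1 s2 := fun h => hd s1 s2 h hs1 hs2
    have hdis := inc_disj G s1 s2 h12 hn12
    have hc1 : (G.incidenceFinset s1).card = G.degree s1 := G.card_incidenceFinset_eq_degree s1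
    have hc2 : (G.incidenceFinset s2).card = G.degree s2 := G.card_incidenceFinset_eq_degree s2
    have hfree : ∀ s, G.Adj u s → G.degree s = k + 1 → ∀ e ∈ G.incidenceFinset s,
        e ∉ (red G k {u}).edgeFinset := by
      intro s hus hs e he
      induction e using Sym2.ind with
      | _ a b =>
        rw [SimpleGraph.mem_incidenceFinset] at he
        have hsr : rdeg G {u} s ≤ k := by
          have := rdeg_lt G {u} s u (by simp) hus.symm
          omega
        have hother : ∀ w, G.Adj s w → rdeg G {u} w ≤ k := by
          intro w hw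
          have h3 := hd s w hw hs
          have h4 := hb w
          have h5 := rdeg_le G {u} w
          omega
        have hab : G.Adj a b := he.1
        rcases Sym2.mem_iff.1 he.2 with rfl | rfl
        · exact not_red_of_low G k {u} s b hsr (hother b hab)
        · exact not_red_of_low G k {u} a s (hother a hab.symm) hsr
    refine step k G ih {u} (G.incidenceFinset s1 ∪ G.incidenceFinset s2)
      (union_subset (inc_sub G s1) (inc_sub G s2)) ?_ ?_ ?_
    · intro e he
      rcases mem_union.1 he with he | he
      · exact hfree s1 h1 hs1 e he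
      · exact hfree s2 h2 hs2 e he
    · rw [card_union_of_disjoint hdis]
      omega
    · rw [card_union_of_disjoint hdis, card_singleton]
      omega
  -- (d3) disjoint union of stars
  by_cases hH : ∃ s, G.degree s = k + 1
  · obtain ⟨s, hs⟩ := hH
    have hc1 : (G.incidenceFinset s).card = G.degree s := G.card_incidenceFinset_eq_degree s
    have hcount := edge_count G k {s} (G.incidenceFinset s) (inc_sub G s)
      (fun e he => inc_not_red G k {s} s (by simp) e he)
    obtain ⟨T', hT', hbd⟩ := ih (red G k {s}) (by omega)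
    refine ⟨{s} ∪ T', good_of_red hT', ?_⟩
    -- the support drops by k + 2
    have hsupp : (supp (red G k {s})).card + (k + 2) ≤ (supp G).card := by
      have h1 : (insert s (G.neighborFinset s)).card = k + 2 := by
        rw [card_insert_of_notMem (by simp), G.card_neighborFinset_eq_degree, hs]
      have hdis : Disjoint (supp (red G k {s})) (insert s (G.neighborFinset s)) := by
        rw [Finset.disjoint_left]
        intro v hv hv'
        simp only [supp, mem_filter, mem_univ, true_and] at hv
        obtain ⟨w, hw⟩ := hv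
        rcases mem_insert.1 hv' with rfl | hv'
        · exact hw.2.1 (by simp)
        · rw [SimpleGraph.mem_neighborFinset] at hv'
          have hws : w ≠ s := by
            rintro rfl
            exact hw.2.2.1 (by simp)
          have hvd : G.degree v ≤ k := by
            have := hd s v hv' hs
            have := hb v
            omega
          exact he ⟨v, s, w, hv'.symm, hw.1, hws.symm, hvd⟩
      rw [← h1, ← card_union_of_disjoint hdis]
      apply card_le_card
      apply union_subset (supp_red G k {s})
      intro v hv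
      simp only [supp, mem_filter, mem_univ, true_and]
      rcases mem_insert.1 hv with rfl | hv
      · have : 0 < G.degree v := by omega
        rw [SimpleGraph.degree_pos_iff_exists_adj] at this
        exact this
      · rw [SimpleGraph.mem_neighborFinset] at hv
        exact ⟨s, hv.symm⟩
    have hu := card_union_le {s} T'
    rw [card_singleton] at hu
    calc (k + 2) * (2 * k + 3) * ({s} ∪ T').card
        ≤ (k + 2) * (2 * k + 3) * (1 + T'.card) := Nat.mul_le_mul_left _ hu
      _ = (k + 2) * (2 * k + 3) + (k + 2) * (2 * k + 3) * T'.card := by ring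
      _ ≤ (k + 2) * (2 * k + 3) + (2 * (k + 2) * (red G k {s}).edgeFinset.card
            + (supp (red G k {s})).card) := by omega
      _ = 2 * (k + 2) * ((red G k {s}).edgeFinset.card + (k + 1))
            + ((supp (red G k {s})).card + (k + 2)) := by ring
      _ ≤ 2 * (k + 2) * G.edgeFinset.card + (supp G).card := by
          apply Nat.add_le_add _ hsupp
          apply Nat.mul_le_mul_left
          omega
  · -- no vertex of degree k + 1
    push Not at hH
    refine ⟨∅, ?_, by simp⟩
    intro v _
    rw [rdeg_empty]
    have := hH v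
    have := hb v
    omega

lemma isKIndependent_compl {G : SimpleGraph V} {k : ℕ} {T : Finset V} (h : Good G k T) :
    IsKIndependent G k Tᶜ := by
  unfold IsKIndependent
  apply SimpleGraph.maxDegree_le_of_forall_degree_le
  rintro ⟨v, hv⟩
  have hv' : v ∉ T := by simpa using hv
  refine le_trans ?_ (h v hv')
  unfold rdeg
  rw [← SimpleGraph.card_neighborFinset_eq_degree,
    ← card_map (Function.Embedding.subtype (· ∈ ((Tᶜ : Finset V) : Set V)))]
  apply card_le_card
  intro w hw
  rw [mem_map] at hw
  obtain ⟨⟨a, ha⟩, ha', rfl⟩ := hw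
  rw [SimpleGraph.mem_neighborFinset] at ha'
  simp only [SimpleGraph.comap_adj, Function.Embedding.subtype_apply] at ha'
  simp only [Function.Embedding.subtype_apply, mem_filter, mem_univ, true_and]
  exact ⟨ha', by simpa using ha⟩

/-- The explicit bound: for `k ≥ 2`, every graph of average degree at most `d` has
`α_k / n ≥ 1 - ((k+2) d + 1) / ((k+2) (2k+3))`. -/
theorem lower_bound (k : ℕ) (hk : 2 ≤ k) (d : ℝ) (G : SimpleGraph V) [Nonempty V]
    (hG : averageDegree G ≤ d) :
    1 - ((k + 2) * d + 1) / ((k + 2) * (2 * k + 3)) ≤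
      (kIndependenceNumber G k : ℝ) / Fintype.card V := by
  obtain ⟨T, hT, hb⟩ := main k hk _ G rfl
  have hn : (0 : ℝ) < Fintype.card V := by exact_mod_cast Fintype.card_pos
  have h1 : Tᶜ.card ≤ kIndependenceNumber G k := by
    unfold kIndependenceNumber
    exact Finset.le_sup (f := card) (by simp [isKIndependent_compl hT])
  have h2 : Tᶜ.card + T.card = Fintype.card V := by
    rw [card_compl]
    have := card_le_univ T
    omega
  have h3 : (supp G).card ≤ Fintype.card V := card_le_univ _
  have h4 : (∑ v, G.degree v) = 2 * G.edgeFinset.card := by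
    convert G.sum_degrees_eq_twice_card_edges
  have h5 : (∑ v, (G.degree v : ℝ)) ≤ d * Fintype.card V := by
    unfold averageDegree at hG
    rwa [div_le_iff₀ hn] at hG
  have h6 : (2 * (G.edgeFinset.card : ℝ)) ≤ d * Fintype.card V := by
    rw [← Nat.cast_sum, h4] at h5
    push_cast at h5
    exact h5
  have h7 : ((k : ℝ) + 2) * (2 * k + 3) * T.card ≤
      2 * (k + 2) * G.edgeFinset.card + (supp G).card := by exact_mod_cast hb
  have h8 : ((supp G).card : ℝ) ≤ Fintype.card V := by exact_mod_cast h3
  have h9 : ((Tᶜ.card : ℕ) : ℝ) + T.card = Fintype.card V := by exact_mod_cast h2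
  have h10 : ((Tᶜ.card : ℕ) : ℝ) ≤ kIndependenceNumber G k := by exact_mod_cast h1
  have hk0 : (0 : ℝ) ≤ k := Nat.cast_nonneg k
  have hpos : (0 : ℝ) < (k + 2) * (2 * k + 3) := by positivity
  rw [le_div_iff₀ hn, sub_mul, one_mul, div_mul_eq_mul_div, sub_le_iff_le_add,
    ← sub_le_iff_le_add', le_div_iff₀ hpos]
  have h11 : (Fintype.card V : ℝ) - kIndependenceNumber G k ≤ T.card := by linarith
  have h12 : ((Fintype.card V : ℝ) - kIndependenceNumber G k) * ((k + 2) * (2 * k + 3)) ≤
      T.card * ((k + 2) * (2 * k + 3)) := mul_le_mul_of_nonneg_right h11 hpos.le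
  have h13 : (2 * (k + 2) * (G.edgeFinset.card : ℝ)) ≤ (k + 2) * (d * Fintype.card V) := by
    have := mul_le_mul_of_nonneg_left h6 (by positivity : (0 : ℝ) ≤ (k : ℝ) + 2)
    linarith
  calc ((Fintype.card V : ℝ) - kIndependenceNumber G k) * ((k + 2) * (2 * k + 3))
      ≤ T.card * ((k + 2) * (2 * k + 3)) := h12
    _ = (k + 2) * (2 * k + 3) * T.card := by ring
    _ ≤ 2 * (k + 2) * G.edgeFinset.card + (supp G).card := h7
    _ ≤ (k + 2) * (d * Fintype.card V) + Fintype.card V := by linarith
    _ = ((k + 2) * d + 1) * Fintype.card V := by ring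

/-- For all integers `k ≥ d ≥ 2` the lower bound `(2k+2-d)/(2k+2)` on `f(k,d)` is not sharp. -/
theorem result : ∀ k d : ℕ, 2 ≤ d → d ≤ k →
    ((2 * k + 2 - d : ℝ)) / (2 * k + 2) < f k d := by
  intro k d hd hdk
  have hk : 2 ≤ k := hd.trans hdk
  have hk0 : (0 : ℝ) ≤ k := Nat.cast_nonneg k
  have hd2 : (2 : ℝ) ≤ d := by exact_mod_cast hd
  have hstrict : ((2 * k + 2 - d : ℝ)) / (2 * k + 2) <
      1 - ((k + 2) * d + 1) / ((k + 2) * (2 * k + 3)) := by
    rw [lt_sub_iff_add_lt, div_add_div _ _ (by positivity) (by positivity), div_lt_one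
      (by positivity)]
    nlinarith
  refine lt_of_lt_of_le hstrict ?_
  unfold f
  apply le_csInf
  · refine ⟨_, Unit, inferInstance, inferInstance, ⊥, ?_, rfl⟩
    unfold averageDegree
    simp
  · rintro r ⟨V, _, _, G, hG, rfl⟩
    exact lower_bound k hk d G hG

end Pool.Agent.Results.MP_10f18b_co.NotSharp
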